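import Pool.Agent.Helper79.EE.UniT

/-!
# UI, U3: growth of the iterates of the tensor powers
-/

open Polynomial

namespace Pool.Agent.Helper85.UI

open Pool.Agent.Helper79.GC Pool.Agent.Helper79.GX Pool.Agent.Helper79.AA Pool.Agent.Helper79.DD
  Pool.Agent.Helper79.CU Pool.Agent.Helper79.EE

theorem tens_succR {R ι : Type} [CommRing R] [DecidableEq ι] (r : ℕ) (a : Matrix ι ι R)
    (I J : Fin (r + 1) → ι) :
    tens (r + 1) a I J = (if Fin.tail I = Fin.tail J then a (I 0) (J 0) else 0) +
      (if I 0 = J 0 then tens r a (Fin.tail I) (Fin.tail J) else 0) := by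
  unfold tens
  rw [Fin.sum_univ_succ]
  congr 1
  · congr 1
    rw [eq_iff_iff]
    constructor
    · intro h
      funext s
      exact h s.succ (Fin.succ_ne_zero s)
    · intro h s hs
      obtain ⟨s', rfl⟩ := Fin.exists_succ_eq.2 hs
      exact congrFun h s'
  · by_cases h0 : I 0 = J 0
    · rw [if_pos h0]
      refine Finset.sum_congr rfl fun s _ => ?_
      congr 1
      rw [eq_iff_iff]
      constructor
      · intro h s' hs'
        exact h s'.succ fun h1 => hs' (Fin.succ_injective _ h1)
      · intro h s' hs'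
        rcases Fin.eq_zero_or_eq_succ s' with rfl | ⟨s'', rfl⟩
        · exact h0
        · exact h s'' fun h1 => hs' (by rw [h1])
    · rw [if_neg h0]
      refine Finset.sum_eq_zero fun s _ => ?_
      rw [if_neg]
      intro h
      exact h0 (h 0 (Fin.succ_ne_zero s).symm)

theorem betaF_succ_apply {ι : Type} [Fintype ι] [DecidableEq ι] (T : ℚ[X]) (A : Matrix ι ι ℚ[X])
    (n : ℕ) (i j : ι) : ((n + 1 : ℕ) : ℚ[X]) * betaF T A (n + 1) i j =
      T * derivative (betaF T A n i j) - (n : ℚ[X]) * derivative T * betaF T A n i j +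
        ∑ l, betaF T A n i l * A l j := by
  rw [betaF, Matrix.smul_apply, Matrix.add_apply, Matrix.sub_apply, Matrix.smul_apply,
    Matrix.smul_apply, Matrix.map_apply, Matrix.mul_apply]
  simp only [smul_eq_mul]
  have h : ((n + 1 : ℕ) : ℚ[X]) * C (((n : ℚ) + 1)⁻¹) = 1 := by
    have h1 : ((n + 1 : ℕ) : ℚ[X]) = C ((n : ℚ) + 1) := by
      rw [← C_eq_natCast]; push_cast; rfl
    rw [h1, ← C_mul, mul_inv_cancel₀ (by positivity), C_1]
  rw [← mul_assoc, h, one_mul]

theorem betaF_tens {ι : Type} [Fintype ι] [DecidableEq ι] (T : ℚ[X]) (a : Matrix ι ι ℚ[X])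
    (r n : ℕ) (I J : Fin (r + 1) → ι) : betaF T (tens (r + 1) a) n I J =
      ∑ p ∈ Finset.HasAntidiagonal.antidiagonal n, betaF T a p.1 (I 0) (J 0) *
        betaF T (tens r a) p.2 (Fin.tail I) (Fin.tail J) := by
  induction n generalizing J with
  | zero =>
    rw [Finset.Nat.antidiagonal_zero, Finset.sum_singleton]
    simp only [betaF]
    by_cases h : I = J
    · subst h
      simp
    · rw [Matrix.one_apply_ne h]
      by_cases h0 : I 0 = J 0
      · have h1 : Fin.tail I ≠ Fin.tail J := by
          intro h1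
          apply h
          rw [← Fin.cons_self_tail I, ← Fin.cons_self_tail J, h0, h1]
        rw [Matrix.one_apply_ne h1, mul_zero]
      · rw [Matrix.one_apply_ne h0, zero_mul]
  | succ n ih =>
    have h0 : ((n + 1 : ℕ) : ℚ[X]) ≠ 0 := Nat.cast_ne_zero.2 (Nat.succ_ne_zero n)
    apply mul_left_cancel₀ h0
    rw [betaF_succ_apply, ih, map_sum]
    -- the sum over the tensor indices
    have e1 : ∑ L : Fin (r + 1) → ι, betaF T (tens (r + 1) a) n I L * tens (r + 1) a L J =
        ∑ p ∈ Finset.HasAntidiagonal.antidiagonal n,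
          ((∑ l, betaF T a p.1 (I 0) l * a l (J 0)) *
              betaF T (tens r a) p.2 (Fin.tail I) (Fin.tail J) +
          betaF T a p.1 (I 0) (J 0) *
            ∑ L', betaF T (tens r a) p.2 (Fin.tail I) L' * tens r a L' (Fin.tail J)) := by
      rw [← (Fin.consEquiv (fun _ : Fin (r + 1) => ι)).sum_comp, Fintype.sum_prod_type]
      have e2 : ∀ (l : ι) (L' : Fin r → ι),
          betaF T (tens (r + 1) a) n I (Fin.consEquiv (fun _ : Fin (r + 1) => ι) (l, L')) *
            tens (r + 1) a (Fin.consEquiv (fun _ : Fin (r + 1) => ι) (l, L')) J =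
          ∑ p ∈ Finset.HasAntidiagonal.antidiagonal n,
            ((if L' = Fin.tail J then betaF T a p.1 (I 0) l * a l (J 0) *
                betaF T (tens r a) p.2 (Fin.tail I) L' else 0) +
              (if l = J 0 then betaF T a p.1 (I 0) l *
                (betaF T (tens r a) p.2 (Fin.tail I) L' * tens r a L' (Fin.tail J)) else 0)) := by
        intro l L'
        have hc : Fin.consEquiv (fun _ : Fin (r + 1) => ι) (l, L') =
            (Fin.cons l L' : Fin (r + 1) → ι) := rfl
        rw [hc, ih, tens_succR, Finset.sum_mul]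
        refine Finset.sum_congr rfl fun p _ => ?_
        rw [Fin.cons_zero, Fin.tail_cons]
        split_ifs <;> ring
      simp only [e2]
      rw [Finset.sum_congr rfl fun l _ => Finset.sum_comm, Finset.sum_comm]
      refine Finset.sum_congr rfl fun p _ => ?_
      simp only [Finset.sum_add_distrib]
      congr 1
      · rw [Finset.sum_mul]
        refine Finset.sum_congr rfl fun l _ => ?_
        rw [Finset.sum_ite_eq' Finset.univ (Fin.tail J)]
        simp
      · rw [Finset.sum_comm, Finset.mul_sum]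
        refine Finset.sum_congr rfl fun L' _ => ?_
        rw [Finset.sum_ite_eq' Finset.univ (J 0)]
        simp
    rw [e1, Finset.mul_sum, Finset.mul_sum, ← Finset.sum_sub_distrib, ← Finset.sum_add_distrib]
    have e3 : ∀ p ∈ Finset.HasAntidiagonal.antidiagonal n,
        T * derivative (betaF T a p.1 (I 0) (J 0) *
            betaF T (tens r a) p.2 (Fin.tail I) (Fin.tail J)) -
          (n : ℚ[X]) * derivative T * (betaF T a p.1 (I 0) (J 0) *
            betaF T (tens r a) p.2 (Fin.tail I) (Fin.tail J)) +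
        ((∑ l, betaF T a p.1 (I 0) l * a l (J 0)) *
            betaF T (tens r a) p.2 (Fin.tail I) (Fin.tail J) +
          betaF T a p.1 (I 0) (J 0) *
            ∑ L', betaF T (tens r a) p.2 (Fin.tail I) L' * tens r a L' (Fin.tail J)) =
        ((p.1 + 1 : ℕ) : ℚ[X]) * betaF T a (p.1 + 1) (I 0) (J 0) *
          betaF T (tens r a) p.2 (Fin.tail I) (Fin.tail J) +
        betaF T a p.1 (I 0) (J 0) *
          (((p.2 + 1 : ℕ) : ℚ[X]) * betaF T (tens r a) (p.2 + 1) (Fin.tail I) (Fin.tail J)) := by
      intro p hp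
      have hpn : p.1 + p.2 = n := Finset.HasAntidiagonal.mem_antidiagonal.1 hp
      rw [betaF_succ_apply, betaF_succ_apply, derivative_mul, ← hpn]
      push_cast
      ring
    rw [Finset.sum_congr rfl e3]
    -- the combinatorial identity
    set f : ℕ → ℚ[X] := fun j => betaF T a j (I 0) (J 0) with hf
    set g : ℕ → ℚ[X] := fun j => betaF T (tens r a) j (Fin.tail I) (Fin.tail J) with hg
    have key : ∑ p ∈ Finset.HasAntidiagonal.antidiagonal n,
        (((p.1 + 1 : ℕ) : ℚ[X]) * f (p.1 + 1) * g p.2 +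
          f p.1 * (((p.2 + 1 : ℕ) : ℚ[X]) * g (p.2 + 1))) =
        ((n + 1 : ℕ) : ℚ[X]) *
          ∑ p ∈ Finset.HasAntidiagonal.antidiagonal (n + 1), f p.1 * g p.2 := by
      have h1 : ((n + 1 : ℕ) : ℚ[X]) * ∑ p ∈ Finset.HasAntidiagonal.antidiagonal (n + 1),
          f p.1 * g p.2 = ∑ p ∈ Finset.HasAntidiagonal.antidiagonal (n + 1),
            ((p.1 : ℚ[X]) * f p.1 * g p.2 + f p.1 * ((p.2 : ℚ[X]) * g p.2)) := by
        rw [Finset.mul_sum]
        refine Finset.sum_congr rfl fun p hp => ?_
        have h2 : p.1 + p.2 = n + 1 := Finset.HasAntidiagonal.mem_antidiagonal.1 hp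
        rw [← h2]
        push_cast
        ring
      rw [h1, Finset.sum_add_distrib, Finset.sum_add_distrib]
      congr 1
      · rw [Finset.Nat.antidiagonal_succ, Finset.sum_cons, Finset.sum_map]
        simp
      · rw [Finset.Nat.antidiagonal_succ', Finset.sum_cons, Finset.sum_map]
        simp
    exact key

end Pool.Agent.Helper85.UI

namespace Pool.Agent.Helper79.UI

open Pool.Agent.Helper79.GC Pool.Agent.Helper79.GX Pool.Agent.Helper79.AA Pool.Agent.Helper79.DD
  Pool.Agent.Helper79.CU Pool.Agent.Helper79.EE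

/-- U3: growth for the tensor powers. -/
theorem gr_tensQ {β : Type} [Fintype β] [DecidableEq β] {T : ℚ[X]} {M : Matrix β β ℚ[X]} {x : ℚ}
    {Q : ℝ} (hx : T.eval x ≠ 0) (hQ : 1 ≤ Q) (h : Gr T M x Q) (r : ℕ) :
    Gr T (tens (r + 1) M) x ((2 * Q) ^ (r + 1)) := by
  have key := gr_tensG (Γ := Unit) (β := β) (T := T)
    (A := M.submatrix (Equiv.punitProd β) (Equiv.punitProd β))
    (Ar := fun r => (tens (r + 1) M).submatrix (Equiv.punitProd (Fin (r + 1) → β))
      (Equiv.punitProd (Fin (r + 1) → β))) (u := x) hQ (gr_submatrix (Equiv.punitProd β) h)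
    ?_ () (fun _ _ _ => 1) ?_ r
  · have h2 := gr_submatrix (Equiv.punitProd (Fin (r + 1) → β)).symm key
    rw [Matrix.submatrix_submatrix] at h2
    have e : (Equiv.punitProd (Fin (r + 1) → β)) ∘ (Equiv.punitProd (Fin (r + 1) → β)).symm = id := by
      funext y; simp
    rw [e, Matrix.submatrix_id_id] at h2
    exact h2
  · funext y z
    obtain ⟨-, I⟩ := y
    obtain ⟨-, J⟩ := z
    change tens 1 M I J = M (I 0) (J 0)
    unfold tens
    rw [Fin.sum_univ_one, if_pos]
    intro s' hs'
    exact absurd (Subsingleton.elim _ _) hs'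
  · intro r n γ γ' I J
    simp only [Finset.univ_unique, Finset.sum_singleton, mul_one, gm_submatrix]
    change gm T (tens (r + 2) M) n x I J = ∑ p ∈ Finset.HasAntidiagonal.antidiagonal n,
      gm T M p.1 x (I 0) (J 0) * gm T (tens (r + 1) M) p.2 x (Fin.tail I) (Fin.tail J)
    unfold gm
    simp only [Matrix.of_apply]
    rw [Pool.Agent.Helper85.UI.betaF_tens, eval_finsetSum, Finset.sum_div]
    refine Finset.sum_congr rfl fun p hp => ?_
    have hpn : p.1 + p.2 = n := Finset.HasAntidiagonal.mem_antidiagonal.1 hp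
    rw [eval_mul, ← hpn, pow_add, mul_div_mul_comm]

end Pool.Agent.Helper79.UI
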